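import Mathlib

/-!
# The density ideal and its P-property and splitting property

Helper file for problem MP_07734d_lc.
-/

namespace Pool.Agent.Q302.NK

open Filter Topology

open Classical in
/-- Relative density of `s` in the block `[2^n, 2^(n+1))`. -/
noncomputable def dens (n : ℕ) (s : Set ℕ) : ℝ :=
  (((Finset.Ico (2 ^ n) (2 ^ (n + 1))).filter (· ∈ s)).card : ℝ) / 2 ^ n

/-- The density ideal. -/
def Z : Set (Set ℕ) := {s | Tendsto (fun n => dens n s) atTop (𝓝 0)}

theorem dens_nonneg (n : ℕ) (s : Set ℕ) : 0 ≤ dens n s := by unfold dens; positivity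

theorem dens_mono (n : ℕ) {s t : Set ℕ} (h : s ⊆ t) : dens n s ≤ dens n t := by
  unfold dens
  gcongr

theorem dens_union (n : ℕ) (s t : Set ℕ) : dens n (s ∪ t) ≤ dens n s + dens n t := by
  classical
  unfold dens
  rw [← add_div]
  gcongr
  rw [← Nat.cast_add]
  gcongr
  refine (Finset.card_le_card ?_).trans (Finset.card_union_le _ _)
  intro x hx
  simp only [Finset.mem_filter, Finset.mem_union, Set.mem_union] at hx ⊢
  tauto

theorem dens_congr {n : ℕ} {s t : Set ℕ} (h : ∀ x, 2 ^ n ≤ x → x < 2 ^ (n + 1) → (x ∈ s ↔ x ∈ t)) :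
    dens n s = dens n t := by
  classical
  unfold dens
  congr 3
  ext x
  simp only [Finset.mem_filter, Finset.mem_Ico]
  constructor
  · rintro ⟨h1, h2⟩
    exact ⟨h1, (h x h1.1 h1.2).1 h2⟩
  · rintro ⟨h1, h2⟩
    exact ⟨h1, (h x h1.1 h1.2).2 h2⟩

theorem dens_empty (n : ℕ) : dens n ∅ = 0 := by
  unfold dens
  simp

theorem dens_univ (n : ℕ) : dens n Set.univ = 1 := by
  unfold dens
  simp [pow_succ]
  have : (2 : ℝ) ^ n ≠ 0 := by positivity
  rw [show (2 ^ n * 2 - 2 ^ n : ℕ) = 2 ^ n by omega]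
  field_simp
  simp

theorem Z_mono {s t : Set ℕ} (ht : t ∈ Z) (h : s ⊆ t) : s ∈ Z :=
  squeeze_zero (fun n => dens_nonneg n s) (fun n => dens_mono n h) ht

theorem Z_union {s t : Set ℕ} (hs : s ∈ Z) (ht : t ∈ Z) : s ∪ t ∈ Z := by
  refine squeeze_zero (fun n => dens_nonneg n _) (fun n => dens_union n s t) ?_
  simpa using Tendsto.add hs ht

theorem Z_finite {s : Set ℕ} (hs : s.Finite) : s ∈ Z := by
  obtain ⟨N, hN⟩ := hs.bddAbove
  have h1 : ∀ᶠ n in atTop, dens n s = 0 := by
    filter_upwards [eventually_ge_atTop (N + 1)] with n hn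
    rw [← dens_empty n]
    apply dens_congr
    intro x hx _
    have h2 : n < 2 ^ n := Nat.lt_two_pow_self
    constructor
    · intro hxs
      have := hN hxs
      omega
    · intro hx; exact absurd hx (Set.notMem_empty x)
  exact Tendsto.congr' (h1.mono fun n hn => hn.symm) tendsto_const_nhds

theorem dens_biUnion (n : ℕ) (s : ℕ → Set ℕ) (F : Finset ℕ) :
    dens n (⋃ i ∈ F, s i) ≤ ∑ i ∈ F, dens n (s i) := by
  classical
  induction F using Finset.induction_on with
  | empty => simp [dens_empty]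
  | insert a F ha ih =>
    rw [Finset.sum_insert ha, Finset.set_biUnion_insert]
    exact (dens_union n _ _).trans (by linarith)

/-- The P-property. -/
theorem Z_pprop (s : ℕ → Set ℕ) (hs : ∀ j, s j ∈ Z) :
    ∃ t ∈ Z, ∀ j, (s j \ t).Finite := by
  classical
  -- thresholds
  have h1 : ∀ j : ℕ, ∃ N : ℕ, ∀ n ≥ N, dens n (⋃ i ∈ Finset.range (j + 1), s i) < 1 / ((j : ℝ) + 1) := by
    intro j
    have h2 : (⋃ i ∈ Finset.range (j + 1), s i) ∈ Z := by
      have : ∀ m : ℕ, (⋃ i ∈ Finset.range m, s i) ∈ Z := by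
        intro m
        induction m with
        | zero => simpa using Z_finite Set.finite_empty
        | succ m ih =>
          rw [Finset.range_add_one, Finset.set_biUnion_insert]
          exact Z_union (hs m) ih
      exact this _
    have h3 : (0 : ℝ) < 1 / ((j : ℝ) + 1) := by positivity
    have h4 := (tendsto_order.1 h2).2 _ h3
    exact eventually_atTop.1 h4
  choose N hN using h1
  -- monotone thresholds
  let M : ℕ → ℕ := fun j => (Finset.range (j + 1)).sup N + j
  have hM1 : ∀ j, N j ≤ M j := fun j =>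
    (Finset.le_sup (f := N) (Finset.mem_range.2 (Nat.lt_succ_self j))).trans (Nat.le_add_right _ _)
  have hM2 : ∀ j, j ≤ M j := fun j => Nat.le_add_left _ _
  have hM3 : Monotone M := by
    intro a b hab
    have : (Finset.range (a + 1)).sup N ≤ (Finset.range (b + 1)).sup N :=
      Finset.sup_mono (Finset.range_mono (by omega))
    show _ + _ ≤ _ + _
    omega
  refine ⟨⋃ j, (s j \ {x | x < 2 ^ M j}), ?_, ?_⟩
  · rw [Z, Set.mem_ofPred_eq, tendsto_order]
    refine ⟨fun a ha => Eventually.of_forall fun n => lt_of_lt_of_le ha (dens_nonneg _ _), ?_⟩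
    intro ε hε
    obtain ⟨J, hJ⟩ := exists_nat_one_div_lt hε
    filter_upwards [eventually_ge_atTop (M J)] with n hn
    -- the largest `j` with `M j ≤ n`
    set j := Nat.findGreatest (fun j => M j ≤ n) n with hj
    have hj1 : M j ≤ n := Nat.findGreatest_spec (P := fun j => M j ≤ n) ((hM2 J).trans hn) hn
    have hj2 : J ≤ j := Nat.le_findGreatest ((hM2 J).trans hn) hn
    have hj3 : ∀ i, M i ≤ n → i ≤ j := fun i hi => Nat.le_findGreatest ((hM2 i).trans hi) hi
    have h5 : dens n (⋃ j, (s j \ {x | x < 2 ^ M j})) ≤ dens n (⋃ i ∈ Finset.range (j + 1), s i) := by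
      have h6 : dens n (⋃ j, (s j \ {x | x < 2 ^ M j})) =
          dens n ((⋃ j, (s j \ {x | x < 2 ^ M j})) ∩ {x | x < 2 ^ (n + 1)}) := by
        apply dens_congr
        intro x _ hx
        simp [hx]
      rw [h6]
      apply dens_mono
      rintro x ⟨hx1, hx2⟩
      rw [Set.mem_iUnion] at hx1
      obtain ⟨i, hi1, hi2⟩ := hx1
      have hi3 : M i ≤ n := by
        by_contra hcon
        apply hi2
        have : 2 ^ (n + 1) ≤ 2 ^ M i := Nat.pow_le_pow_right (by norm_num) (by omega)
        exact lt_of_lt_of_le hx2 this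
      simp only [Set.mem_iUnion, Finset.mem_range]
      exact ⟨i, by have := hj3 i hi3; omega, hi1⟩
    refine lt_of_le_of_lt h5 (lt_trans (hN j n ((hM1 j).trans hj1)) (lt_of_le_of_lt ?_ hJ))
    gcongr
  · intro j
    apply (Set.finite_lt_nat (2 ^ M j)).subset
    rintro x ⟨hx1, hx2⟩
    by_contra hx3
    exact hx2 (Set.mem_iUnion.2 ⟨j, hx1, hx3⟩)

theorem dens_le_of_interval (n a b : ℕ) (s : Set ℕ)
    (h : ∀ x, 2 ^ n ≤ x → x < 2 ^ (n + 1) → x ∈ s → a ≤ x ∧ x < b) :
    dens n s ≤ ((b - a : ℕ) : ℝ) / 2 ^ n := by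
  classical
  unfold dens
  gcongr
  rw [← Nat.card_Ico]
  apply Finset.card_le_card
  intro x hx
  simp only [Finset.mem_filter, Finset.mem_Ico] at hx ⊢
  exact h x hx.1.1 hx.1.2 hx.2

/-- A set below level `j` in one class of the `j`-th splitting has small density. -/
theorem dens_class (j c n : ℕ) (hn : j ≤ n) :
    dens n {x | x / 2 ^ (Nat.log 2 x - j) = c} ≤ 1 / 2 ^ j := by
  have h4 : 0 < 2 ^ (n - j) := by positivity
  refine (dens_le_of_interval n (c * 2 ^ (n - j)) ((c + 1) * 2 ^ (n - j)) _ ?_).trans ?_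
  · intro x hx1 hx2 hx
    have h2 : Nat.log 2 x = n := (Nat.log_eq_iff (Or.inr ⟨by norm_num, by
      have h3 : 0 < 2 ^ n := by positivity
      omega⟩)).2 ⟨hx1, hx2⟩
    rw [Set.mem_ofPred_eq, h2] at hx
    constructor
    · rw [← hx]; exact Nat.div_mul_le_self _ _
    · rw [← Nat.div_lt_iff_lt_mul h4, hx]; exact Nat.lt_succ_self c
  · rw [show (c + 1) * 2 ^ (n - j) - c * 2 ^ (n - j) = 2 ^ (n - j) by rw [add_mul]; omega]
    rw [div_le_div_iff₀ (by positivity) (by positivity)]
    have h2 : (2 : ℝ) ^ (n - j) * 2 ^ j = 2 ^ n := by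
      rw [← pow_add]; congr 1; omega
    push_cast
    rw [h2, one_mul]

/-- The union of finite sets `G j ⊆ [2^j, ∞)`, each in one class of the `j`-th splitting, is in
the density ideal. -/
theorem Z_iUnion (G : ℕ → Set ℕ) (c : ℕ → ℕ) (hG : ∀ j, (G j).Finite)
    (hG1 : ∀ j, ∀ x ∈ G j, 2 ^ j ≤ x) (hG2 : ∀ j, ∀ x ∈ G j, x / 2 ^ (Nat.log 2 x - j) = c j) :
    (⋃ j, G j) ∈ Z := by
  rw [Z, Set.mem_ofPred_eq, tendsto_order]
  refine ⟨fun a ha => Eventually.of_forall fun n => lt_of_lt_of_le ha (dens_nonneg _ _), ?_⟩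
  intro ε hε
  obtain ⟨J, hJ⟩ : ∃ J : ℕ, 2 * (1 / 2 : ℝ) ^ J < ε / 2 := by
    obtain ⟨J, hJ⟩ := exists_pow_lt_of_lt_one (show (0 : ℝ) < ε / 4 by positivity)
      (show (1 / 2 : ℝ) < 1 by norm_num)
    exact ⟨J, by linarith⟩
  have h1 : (⋃ j ∈ Finset.range J, G j) ∈ Z :=
    Z_finite (Set.Finite.biUnion (Finset.finite_toSet _) (fun j _ => hG j))
  have h2 := (tendsto_order.1 h1).2 (ε / 2) (by positivity)
  filter_upwards [h2, eventually_ge_atTop J] with n hn hnJ
  have h3 : dens n (⋃ j, G j) ≤ dens n (⋃ j ∈ Finset.range J, G j) +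
      dens n (⋃ j ∈ Finset.Ico J (n + 1), G j) := by
    refine le_trans ?_ (dens_union n _ _)
    have : dens n (⋃ j, G j) = dens n ((⋃ j, G j) ∩ {x | x < 2 ^ (n + 1)}) := by
      apply dens_congr
      intro x _ hx
      simp [hx]
    rw [this]
    apply dens_mono
    rintro x ⟨hx1, hx2⟩
    obtain ⟨j, hj⟩ := Set.mem_iUnion.1 hx1
    have hjn : j < n + 1 := by
      by_contra hcon
      have h4 := hG1 j x hj
      have h5 : 2 ^ (n + 1) ≤ 2 ^ j := Nat.pow_le_pow_right (by norm_num) (by omega)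
      have h6 : x < 2 ^ (n + 1) := hx2
      omega
    by_cases hjJ : j < J
    · left
      simp only [Set.mem_iUnion, Finset.mem_range]
      exact ⟨j, hjJ, hj⟩
    · right
      simp only [Set.mem_iUnion, Finset.mem_Ico]
      exact ⟨j, ⟨by omega, hjn⟩, hj⟩
  have h4 : dens n (⋃ j ∈ Finset.Ico J (n + 1), G j) ≤ 2 * (1 / 2 : ℝ) ^ J := by
    refine (dens_biUnion n G _).trans ?_
    calc ∑ j ∈ Finset.Ico J (n + 1), dens n (G j)
        ≤ ∑ j ∈ Finset.Ico J (n + 1), (1 / 2 : ℝ) ^ j := by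
          apply Finset.sum_le_sum
          intro j hj
          rw [Finset.mem_Ico] at hj
          refine (dens_mono n (fun x hx => hG2 j x hx)).trans ?_
          have := dens_class j (c j) n (by omega)
          rwa [one_div_pow]
      _ ≤ _ := by
          have : ∀ m, ∑ j ∈ Finset.Ico J (J + m), (1 / 2 : ℝ) ^ j =
              2 * (1 / 2 : ℝ) ^ J - 2 * (1 / 2 : ℝ) ^ (J + m) := by
            intro m
            induction m with
            | zero => simp
            | succ m ih =>
              rw [← add_assoc, Finset.sum_Ico_succ_top (by omega), ih]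
              ring
          obtain ⟨m, hm⟩ := Nat.exists_eq_add_of_le (show J ≤ n + 1 by omega)
          rw [hm, this m]
          have : (0 : ℝ) ≤ 2 * (1 / 2 : ℝ) ^ (J + m) := by positivity
          linarith
  linarith

/-- Sets pulled back by the block index. -/
theorem Z_log_iff (S : Set ℕ) : {k | Nat.log 2 k ∈ S} ∈ Z ↔ S.Finite := by
  have h1 : ∀ n, (n ∈ S → dens n {k | Nat.log 2 k ∈ S} = 1) ∧
      (n ∉ S → dens n {k | Nat.log 2 k ∈ S} = 0) := by
    intro n
    have h2 : ∀ x, 2 ^ n ≤ x → x < 2 ^ (n + 1) → Nat.log 2 x = n := by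
      intro x hx1 hx2
      exact (Nat.log_eq_iff (Or.inr ⟨by norm_num, by
        have h3 : 0 < 2 ^ n := by positivity
        omega⟩)).2 ⟨hx1, hx2⟩
    constructor
    · intro hn
      rw [← dens_univ n]
      apply dens_congr
      intro x hx1 hx2
      simp [h2 x hx1 hx2, hn]
    · intro hn
      rw [← dens_empty n]
      apply dens_congr
      intro x hx1 hx2
      simp [h2 x hx1 hx2, hn]
  constructor
  · intro h
    have h3 := (tendsto_order.1 h).2 (1 / 2) (by norm_num)
    obtain ⟨N, hN⟩ := eventually_atTop.1 h3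
    apply (Set.finite_lt_nat N).subset
    intro n hn
    by_contra hcon
    have h4 := hN n (not_lt.1 hcon)
    rw [(h1 n).1 hn] at h4
    norm_num at h4
  · intro h
    obtain ⟨N, hN⟩ := h.bddAbove
    have h3 : ∀ᶠ n in atTop, dens n {k | Nat.log 2 k ∈ S} = 0 := by
      filter_upwards [eventually_ge_atTop (N + 1)] with n hn
      apply (h1 n).2
      intro hnS
      have := hN hnS
      omega
    exact Tendsto.congr' (h3.mono fun n hn => hn.symm) tendsto_const_nhds

end Pool.Agent.Q302.NK
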