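import Pool.Agent.Q302.NK.Z

/-!
# Boundedness of sequences of submeasures on the ideal `Z ⊗ Fin`

Helper file for problem MP_07734d_lc.
-/

namespace Pool.Agent.Q302.NK

open Filter Topology
open scoped ENNReal

/-- monotone and subadditive -/
def Sub (κ : ℕ → Set ℕ → ℝ≥0∞) : Prop :=
  (∀ n A B, A ⊆ B → κ n A ≤ κ n B) ∧ ∀ n A B, κ n (A ∪ B) ≤ κ n A + κ n B

/-- bounded at `s` -/
def BddAt (κ : ℕ → Set ℕ → ℝ≥0∞) (s : Set ℕ) : Prop := ∃ K < ∞, ∀ n, κ n s ≤ K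

/-- column -/
def col (A : Set ℕ) (n : ℕ) : Set ℕ := {k | Nat.pair n k ∈ A}

/-- indices of infinite columns -/
def infc (A : Set ℕ) : Set ℕ := {n | (col A n).Infinite}

/-- The ideal `Z ⊗ Fin`. -/
def J : Set (Set ℕ) := {A | infc A ∈ Z}

theorem lemA (κ : ℕ → Set ℕ → ℝ≥0∞) (h : Sub κ) (𝓚 : Set (Set ℕ))
    (hP : ∀ s : ℕ → Set ℕ, (∀ j, s j ∈ 𝓚) → ∃ t ∈ 𝓚, ∀ j, (s j \ t).Finite)
    (hb : ∀ s ∈ 𝓚, BddAt κ s) (L : Set ℕ) (hL : BddAt κ L)
    (hun : ∀ K < ∞, ∃ n, ∃ s ∈ 𝓚, K < κ n s) (M : ℝ≥0∞) (hM : M < ∞) :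
    ∃ n, ∃ F : Set ℕ, F.Finite ∧ Disjoint F L ∧ M < κ n F := by
  have h1 : ∀ j : ℕ, ∃ n, ∃ s ∈ 𝓚, (j : ℝ≥0∞) < κ n s := fun j =>
    hun j (ENNReal.natCast_lt_top j)
  choose n s hs hns using h1
  obtain ⟨t, ht, hst⟩ := hP s hs
  obtain ⟨C, hC, hC'⟩ := hb t ht
  obtain ⟨K, hK, hK'⟩ := hL
  obtain ⟨j, hj⟩ := ENNReal.exists_nat_gt (show C + K + M ≠ ∞ from
    (ENNReal.add_lt_top.2 ⟨ENNReal.add_lt_top.2 ⟨hC, hK⟩, hM⟩).ne)
  refine ⟨n j, (s j \ t) \ L, (hst j).subset Set.sdiff_subset, Set.disjoint_sdiff_left, ?_⟩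
  by_contra hcon
  push Not at hcon
  have h2 : κ (n j) (s j) ≤ C + K + M := by
    calc κ (n j) (s j) ≤ κ (n j) ((t ∪ L) ∪ ((s j \ t) \ L)) := by
          apply h.1
          intro x hx
          by_cases h3 : x ∈ t
          · exact Or.inl (Or.inl h3)
          · by_cases h4 : x ∈ L
            · exact Or.inl (Or.inr h4)
            · exact Or.inr ⟨⟨hx, h3⟩, h4⟩
      _ ≤ κ (n j) (t ∪ L) + κ (n j) ((s j \ t) \ L) := h.2 _ _ _
      _ ≤ (κ (n j) t + κ (n j) L) + M := add_le_add (h.2 _ _ _) hcon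
      _ ≤ C + K + M := by gcongr <;> [exact hC' _; exact hK' _]
  exact absurd ((hns j).trans_le h2) (not_lt.2 hj.le)

theorem sub_biUnion {κ : ℕ → Set ℕ → ℝ≥0∞} (h : Sub κ) (h0 : ∀ n, κ n ∅ = 0) (n : ℕ)
    (s : ℕ → Set ℕ) (F : Finset ℕ) :
    κ n (⋃ i ∈ F, s i) ≤ ∑ i ∈ F, κ n (s i) := by
  classical
  induction F using Finset.induction_on with
  | empty => simp [h0]
  | insert a F ha ih =>
    rw [Finset.sum_insert ha, Finset.set_biUnion_insert]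
    exact (h.2 n _ _).trans (by gcongr)

theorem Zbound (κ : ℕ → Set ℕ → ℝ≥0∞) (h : Sub κ) (h0 : ∀ n, κ n ∅ = 0)
    (hb : ∀ s ∈ Z, BddAt κ s) : ∃ K < ∞, ∀ n, ∀ s ∈ Z, κ n s ≤ K := by
  by_contra hcon
  push Not at hcon
  have h1 : ∀ j : ℕ, ∃ n, ∃ F : Set ℕ, F.Finite ∧ Disjoint F {x | x < 2 ^ j} ∧
      ((2 ^ (j + 1) * j : ℕ) : ℝ≥0∞) < κ n F := fun j =>
    lemA κ h Z Z_pprop hb _ (hb _ (Z_finite (Set.finite_lt_nat _))) hcon _
      (ENNReal.natCast_lt_top _)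
  choose n F hF hd hM using h1
  have hge : ∀ j, ∀ x ∈ F j, 2 ^ j ≤ x := by
    intro j x hx
    by_contra hx'
    exact Set.disjoint_left.1 (hd j) hx (not_le.1 hx')
  have h2 : ∀ j : ℕ, ∃ c : ℕ, (j : ℝ≥0∞) <
      κ (n j) (F j ∩ {x | x / 2 ^ (Nat.log 2 x - j) = c}) := by
    intro j
    by_contra hcon2
    push Not at hcon2
    have h3 : F j ⊆ ⋃ c ∈ Finset.range (2 ^ (j + 1)),
        (F j ∩ {x | x / 2 ^ (Nat.log 2 x - j) = c}) := by
      intro x hx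
      have h4 := hge j x hx
      have hx0 : x ≠ 0 := by
        have : 0 < 2 ^ j := by positivity
        omega
      have h5 : j ≤ Nat.log 2 x := Nat.le_log_of_pow_le (by norm_num) h4
      have h6 : x < 2 ^ (Nat.log 2 x + 1) := Nat.lt_pow_succ_log_self (by norm_num) x
      have h7 : x / 2 ^ (Nat.log 2 x - j) < 2 ^ (j + 1) := by
        rw [Nat.div_lt_iff_lt_mul (by positivity), ← pow_add]
        rwa [show j + 1 + (Nat.log 2 x - j) = Nat.log 2 x + 1 by omega]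
      simp only [Set.mem_iUnion, Finset.mem_range]
      exact ⟨_, h7, hx, rfl⟩
    have h4 : κ (n j) (F j) ≤ ((2 ^ (j + 1) * j : ℕ) : ℝ≥0∞) := by
      calc κ (n j) (F j) ≤ _ := h.1 _ _ _ h3
        _ ≤ ∑ c ∈ Finset.range (2 ^ (j + 1)),
            κ (n j) (F j ∩ {x | x / 2 ^ (Nat.log 2 x - j) = c}) := sub_biUnion h h0 _ _ _
        _ ≤ ∑ c ∈ Finset.range (2 ^ (j + 1)), (j : ℝ≥0∞) := Finset.sum_le_sum fun c _ => hcon2 c
        _ = _ := by simp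
    exact absurd (hM j) (not_lt.2 h4)
  choose c hc using h2
  have ht : (⋃ j, (F j ∩ {x | x / 2 ^ (Nat.log 2 x - j) = c j})) ∈ Z :=
    Z_iUnion _ c (fun j => (hF j).subset Set.inter_subset_left)
      (fun j x hx => hge j x hx.1) (fun j x hx => hx.2)
  obtain ⟨K, hK, hK'⟩ := hb _ ht
  obtain ⟨j, hj⟩ := ENNReal.exists_nat_gt hK.ne
  have h5 := hK' (n j)
  have h6 : κ (n j) (F j ∩ {x | x / 2 ^ (Nat.log 2 x - j) = c j}) ≤ K :=
    (h.1 _ _ _ (Set.subset_iUnion (fun j => F j ∩ {x | x / 2 ^ (Nat.log 2 x - j) = c j}) j)).trans h5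
  exact absurd (hj.trans (hc j)) (not_lt.2 h6)

theorem J_mono {A B : Set ℕ} (hB : B ∈ J) (h : A ⊆ B) : A ∈ J :=
  Z_mono hB (fun n (hn : (col A n).Infinite) => hn.mono (fun _ hk => h hk))

theorem infc_union (A B : Set ℕ) : infc (A ∪ B) = infc A ∪ infc B := by
  ext n
  show (col (A ∪ B) n).Infinite ↔ _
  have : col (A ∪ B) n = col A n ∪ col B n := rfl
  rw [this, Set.infinite_union]
  rfl

theorem J_union {A B : Set ℕ} (hA : A ∈ J) (hB : B ∈ J) : A ∪ B ∈ J := by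
  show infc (A ∪ B) ∈ Z
  rw [infc_union]
  exact Z_union hA hB

theorem col_cyl (s : Set ℕ) (n : ℕ) : col {x | (Nat.unpair x).1 ∈ s} n = {_k | n ∈ s} := by
  ext k
  simp [col]

theorem infc_cyl (s : Set ℕ) : infc {x | (Nat.unpair x).1 ∈ s} ⊆ s := by
  intro n hn
  have h1 : (col {x | (Nat.unpair x).1 ∈ s} n).Infinite := hn
  rw [col_cyl] at h1
  obtain ⟨k, hk⟩ := h1.nonempty
  exact hk

theorem cyl_mem_J {s : Set ℕ} (hs : s ∈ Z) : {x | (Nat.unpair x).1 ∈ s} ∈ J :=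
  Z_mono hs (infc_cyl s)

theorem Cbound (κ : ℕ → Set ℕ → ℝ≥0∞) (h : Sub κ) (hb : ∀ s ∈ J, BddAt κ s) :
    ∃ K < ∞, ∀ n, ∀ A : Set ℕ, (∀ i, (col A i).Finite) → κ n A ≤ K := by
  by_contra hcon
  push Not at hcon
  have hCJ : ∀ A : Set ℕ, (∀ i, (col A i).Finite) → A ∈ J := by
    intro A hA
    have : infc A = ∅ := by
      ext n
      simp only [Set.mem_empty_iff_false, iff_false]
      exact fun hn : (col A n).Infinite => hn (hA n)
    show infc A ∈ Z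
    rw [this]
    exact Z_finite Set.finite_empty
  have hP : ∀ s : ℕ → Set ℕ, (∀ j, s j ∈ {A : Set ℕ | ∀ i, (col A i).Finite}) →
      ∃ t ∈ {A : Set ℕ | ∀ i, (col A i).Finite}, ∀ j, (s j \ t).Finite := by
    intro s hs
    refine ⟨⋃ j, (s j \ {x | (Nat.unpair x).1 < j}), ?_, ?_⟩
    · intro i
      have h1 : (⋃ j ∈ Finset.range (i + 1), col (s j) i).Finite :=
        Set.Finite.biUnion (Finset.finite_toSet _) (fun j _ => hs j i)
      apply h1.subset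
      intro k hk
      have hk' : Nat.pair i k ∈ ⋃ j, (s j \ {x | (Nat.unpair x).1 < j}) := hk
      obtain ⟨j, hj1, hj2⟩ := Set.mem_iUnion.1 hk'
      simp only [Set.mem_ofPred_eq, Nat.unpair_pair, not_lt] at hj2
      simp only [Set.mem_iUnion, Finset.mem_range]
      exact ⟨j, by omega, hj1⟩
    · intro j
      have h1 : (⋃ i ∈ Finset.range j, Nat.pair i '' col (s j) i).Finite :=
        Set.Finite.biUnion (Finset.finite_toSet _) (fun i _ => (hs j i).image _)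
      apply h1.subset
      rintro x ⟨hx1, hx2⟩
      simp only [Set.mem_iUnion, Finset.mem_range]
      refine ⟨(Nat.unpair x).1, ?_, (Nat.unpair x).2, ?_, Nat.pair_unpair x⟩
      · by_contra hcon2
        exact hx2 (Set.mem_iUnion.2 ⟨j, hx1, hcon2⟩)
      · show Nat.pair _ _ ∈ s j
        rw [Nat.pair_unpair]
        exact hx1
  have h1 : ∀ j : ℕ, ∃ n, ∃ F : Set ℕ, F.Finite ∧ Disjoint F {x | (Nat.unpair x).1 < j} ∧
      (j : ℝ≥0∞) < κ n F := by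
    intro j
    refine lemA κ h {A : Set ℕ | ∀ i, (col A i).Finite} hP (fun s hs => hb s (hCJ s hs)) _
      (hb _ (cyl_mem_J (s := {n | n < j}) (Z_finite (Set.finite_lt_nat _)))) ?_ _
      (ENNReal.natCast_lt_top _)
    intro K hK
    obtain ⟨n, A, hA, hAK⟩ := hcon K hK
    exact ⟨n, A, hA, hAK⟩
  choose n F hF hd hM using h1
  have ht : ∀ i, (col (⋃ j, F j) i).Finite := by
    intro i
    have h2 : (⋃ j ∈ Finset.range (i + 1), col (F j) i).Finite := by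
      apply Set.Finite.biUnion (Finset.finite_toSet _)
      intro j _
      apply Set.Finite.preimage _ (hF j)
      intro a _ b _ hab
      exact (Nat.pair_eq_pair.1 hab).2
    apply h2.subset
    intro k hk
    have hk' : Nat.pair i k ∈ ⋃ j, F j := hk
    obtain ⟨j, hj⟩ := Set.mem_iUnion.1 hk'
    have h3 : ¬ (i < j) := by
      intro hij
      refine Set.disjoint_left.1 (hd j) hj ?_
      simpa using hij
    simp only [Set.mem_iUnion, Finset.mem_range]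
    exact ⟨j, by omega, hj⟩
  obtain ⟨K, hK, hK'⟩ := hb _ (hCJ _ ht)
  obtain ⟨j, hj⟩ := ENNReal.exists_nat_gt hK.ne
  have h6 : κ (n j) (F j) ≤ K := (h.1 _ _ _ (Set.subset_iUnion F j)).trans (hK' (n j))
  exact absurd (hj.trans (hM j)) (not_lt.2 h6)

/-- The main bound. -/
theorem Jbound (κ : ℕ → Set ℕ → ℝ≥0∞) (h : Sub κ) (h0 : ∀ n, κ n ∅ = 0)
    (hb : ∀ s ∈ J, BddAt κ s) : ∃ K < ∞, ∀ n, ∀ A ∈ J, κ n A ≤ K := by
  obtain ⟨K₁, hK₁, h1⟩ := Cbound κ h hb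
  obtain ⟨K₂, hK₂, h2⟩ := Zbound (fun n s => κ n {x | (Nat.unpair x).1 ∈ s})
    ⟨fun n A B hAB => h.1 _ _ _ (fun x hx => hAB hx), fun n A B => h.2 n _ _⟩
    (fun n => by
      have : {x : ℕ | (Nat.unpair x).1 ∈ (∅ : Set ℕ)} = ∅ := by ext; simp
      rw [this, h0]) (fun s hs => hb _ (cyl_mem_J hs))
  refine ⟨K₂ + K₁, ENNReal.add_lt_top.2 ⟨hK₂, hK₁⟩, fun n A hA => ?_⟩
  have h3 : A ⊆ {x | (Nat.unpair x).1 ∈ infc A} ∪ (A \ {x | (Nat.unpair x).1 ∈ infc A}) := by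
    intro x hx
    by_cases h4 : x ∈ {x | (Nat.unpair x).1 ∈ infc A}
    · exact Or.inl h4
    · exact Or.inr ⟨hx, h4⟩
  refine (h.1 _ _ _ h3).trans ((h.2 _ _ _).trans (add_le_add (h2 n _ hA) (h1 n _ ?_)))
  intro i
  by_cases hi : i ∈ infc A
  · have : col (A \ {x | (Nat.unpair x).1 ∈ infc A}) i = ∅ := by
      ext k
      simp only [col, Set.mem_ofPred_eq, Set.mem_sdiff, Nat.unpair_pair, Set.mem_empty_iff_false,
        iff_false]
      exact fun hk => hk.2 hi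
    rw [this]
    exact Set.finite_empty
  · have h5 : (col A i).Finite := Set.not_infinite.1 hi
    exact h5.subset (fun k hk => hk.1)

end Pool.Agent.Q302.NK
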