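import Pool.Agent.Q302.NK.Bound
import Pool.Agent.H827R3.NikA

/-!
# The algebra generated by `Z ⊗ Fin` has the Nikodym property

Helper file for problem MP_07734d_lc.
-/

namespace Pool.Agent.Q302.NK

open Filter Topology
open scoped ENNReal

/-- The algebra `F ∪ F*` of a filter. -/
def alg (F : Filter ℕ) : Set (Set ℕ) := {A | A ∈ F ∨ Aᶜ ∈ F}

/-- `μ` is finitely additive on the family `𝒜`. -/
def FinAdd (𝒜 : Set (Set ℕ)) (μ : Set ℕ → ℝ) : Prop :=
  ∀ A ∈ 𝒜, ∀ B ∈ 𝒜, Disjoint A B → μ (A ∪ B) = μ A + μ B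

/-- The total variation of `μ` on the family `𝒜` is at most `C`. -/
def VarLE (𝒜 : Set (Set ℕ)) (μ : Set ℕ → ℝ) (C : ℝ) : Prop :=
  ∀ P : Finset (Set ℕ), (∀ A ∈ P, A ∈ 𝒜) → (P : Set (Set ℕ)).PairwiseDisjoint id →
    ∑ A ∈ P, |μ A| ≤ C

/-- The Nikodym property of the algebra `𝒜` of subsets of `ω`. -/
def Nikodym (𝒜 : Set (Set ℕ)) : Prop :=
  ∀ μ : ℕ → Set ℕ → ℝ, (∀ n, FinAdd 𝒜 (μ n) ∧ ∃ C, VarLE 𝒜 (μ n) C) →
    (∀ A ∈ 𝒜, ∃ C, ∀ n, |μ n A| ≤ C) → ∃ C, ∀ n, VarLE 𝒜 (μ n) C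

/-- The filter dual to `Z ⊗ Fin`. -/
def FJ : Filter ℕ where
  sets := {A | Aᶜ ∈ J}
  univ_sets := by
    show Set.univᶜ ∈ J
    have : infc (Set.univᶜ : Set ℕ) = ∅ := by
      ext n
      simp only [Set.mem_empty_iff_false, iff_false]
      intro hn
      have h1 : (col (Set.univᶜ : Set ℕ) n).Infinite := hn
      obtain ⟨k, hk⟩ := h1.nonempty
      exact hk (Set.mem_univ _)
    show infc _ ∈ Z
    rw [this]
    exact Z_finite Set.finite_empty
  sets_of_superset := fun {A B} hA hAB => J_mono hA (Set.compl_subset_compl.2 hAB)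
  inter_sets := fun {A B} hA hB => by
    show (A ∩ B)ᶜ ∈ J
    rw [Set.compl_inter]
    exact J_union hA hB

theorem mem_FJ {A : Set ℕ} : A ∈ FJ ↔ Aᶜ ∈ J := Iff.rfl

theorem finite_mem_J {A : Set ℕ} (hA : A.Finite) : A ∈ J := by
  have : infc A = ∅ := by
    ext n
    simp only [Set.mem_empty_iff_false, iff_false]
    intro hn
    have h1 : (col A n).Infinite := hn
    apply h1
    apply Set.Finite.preimage _ hA
    intro a _ b _ hab
    exact (Nat.pair_eq_pair.1 hab).2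
  show infc A ∈ Z
  rw [this]
  exact Z_finite Set.finite_empty

theorem univ_notMem_J : (Set.univ : Set ℕ) ∉ J := by
  intro h
  have h1 : infc (Set.univ : Set ℕ) = Set.univ := by
    ext n
    simp only [Set.mem_univ, iff_true]
    show (col Set.univ n).Infinite
    have : col (Set.univ : Set ℕ) n = Set.univ := by ext; simp [col]
    rw [this]
    exact Set.infinite_univ
  have h2 : infc (Set.univ : Set ℕ) ∈ Z := h
  rw [h1] at h2
  have h3 : {k | Nat.log 2 k ∈ (Set.univ : Set ℕ)} ∈ Z := by simpa using h2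
  rw [Z_log_iff] at h3
  exact Set.infinite_univ h3

theorem FJ_le : FJ ≤ cofinite := by
  intro A hA
  rw [mem_FJ]
  exact finite_mem_J (mem_cofinite.1 hA)

theorem FJ_neBot : FJ.NeBot := by
  refine ⟨fun h => univ_notMem_J ?_⟩
  have : (∅ : Set ℕ) ∈ FJ := by rw [h]; trivial
  rw [mem_FJ, Set.compl_empty] at this
  exact this

theorem alg_eq {A : Set ℕ} : A ∈ alg FJ ↔ A ∈ J ∨ Aᶜ ∈ J := by
  show (A ∈ FJ ∨ Aᶜ ∈ FJ) ↔ _
  rw [mem_FJ, mem_FJ, compl_compl, or_comm]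

theorem mem_alg_of_J {A : Set ℕ} (h : A ∈ J) : A ∈ alg FJ := alg_eq.2 (Or.inl h)

theorem alg_union {A B : Set ℕ} (hA : A ∈ alg FJ) (hB : B ∈ alg FJ) : A ∪ B ∈ alg FJ := by
  rw [alg_eq] at *
  rcases hA with hA | hA
  · rcases hB with hB | hB
    · exact Or.inl (J_union hA hB)
    · exact Or.inr (J_mono hB (Set.compl_subset_compl.2 Set.subset_union_right))
  · exact Or.inr (J_mono hA (Set.compl_subset_compl.2 Set.subset_union_left))

theorem univ_mem_alg : (Set.univ : Set ℕ) ∈ alg FJ := by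
  rw [alg_eq, Set.compl_univ]
  exact Or.inr (finite_mem_J Set.finite_empty)

theorem empty_mem_alg : (∅ : Set ℕ) ∈ alg FJ := mem_alg_of_J (finite_mem_J Set.finite_empty)

theorem FinAdd.empty {μ : Set ℕ → ℝ} (h : FinAdd (alg FJ) μ) : μ ∅ = 0 := by
  have := h ∅ empty_mem_alg ∅ empty_mem_alg (by simp)
  simp at this
  exact this

theorem FinAdd.finset {μ : Set ℕ → ℝ} (h : FinAdd (alg FJ) μ) (P : Finset (Set ℕ))
    (hP : ∀ A ∈ P, A ∈ alg FJ) (hd : (P : Set (Set ℕ)).PairwiseDisjoint id) :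
    (⋃ A ∈ P, A) ∈ alg FJ ∧ μ (⋃ A ∈ P, A) = ∑ A ∈ P, μ A := by
  classical
  induction P using Finset.induction_on with
  | empty => simpa using ⟨empty_mem_alg, h.empty⟩
  | insert B P hB ih =>
    have h1 := ih (fun A hA => hP A (Finset.mem_insert_of_mem hA))
      (hd.subset (by intro x hx; exact Finset.mem_insert_of_mem hx))
    rw [Finset.set_biUnion_insert, Finset.sum_insert hB]
    refine ⟨alg_union (hP B (Finset.mem_insert_self _ _)) h1.1, ?_⟩
    rw [h B (hP B (Finset.mem_insert_self _ _)) _ h1.1, h1.2]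
    rw [Set.disjoint_iUnion₂_right]
    intro A hA
    have hne : B ≠ A := by rintro rfl; exact hB hA
    exact hd (Finset.mem_coe.2 (Finset.mem_insert_self _ _))
      (Finset.mem_coe.2 (Finset.mem_insert_of_mem hA)) hne

theorem varLE_of_bound {μ : Set ℕ → ℝ} (h : FinAdd (alg FJ) μ) {K : ℝ}
    (hK : ∀ A ∈ alg FJ, |μ A| ≤ K) : VarLE (alg FJ) μ (K + K) := by
  classical
  intro P hP hd
  rw [← Finset.sum_filter_add_sum_filter_not P (fun A => 0 ≤ μ A)]
  apply add_le_add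
  · have h1 := h.finset (P.filter (fun A => 0 ≤ μ A))
      (fun A hA => hP A (Finset.mem_filter.1 hA).1)
      (hd.subset (by intro x hx; exact (Finset.mem_filter.1 hx).1))
    have h2 : ∑ A ∈ P.filter (fun A => 0 ≤ μ A), |μ A| = ∑ A ∈ P.filter (fun A => 0 ≤ μ A), μ A :=
      Finset.sum_congr rfl (fun A hA => abs_of_nonneg (Finset.mem_filter.1 hA).2)
    rw [h2, ← h1.2]
    exact (le_abs_self _).trans (hK _ h1.1)
  · have h1 := h.finset (P.filter (fun A => ¬ 0 ≤ μ A))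
      (fun A hA => hP A (Finset.mem_filter.1 hA).1)
      (hd.subset (by intro x hx; exact (Finset.mem_filter.1 hx).1))
    have h2 : ∑ A ∈ P.filter (fun A => ¬ 0 ≤ μ A), |μ A| =
        -∑ A ∈ P.filter (fun A => ¬ 0 ≤ μ A), μ A := by
      rw [← Finset.sum_neg_distrib]
      exact Finset.sum_congr rfl
        (fun A hA => abs_of_neg (not_le.1 (Finset.mem_filter.1 hA).2))
    rw [h2, ← h1.2]
    exact (neg_le_abs _).trans (hK _ h1.1)

/-- The Nikodym-Grothendieck theorem below a set of the ideal. -/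
theorem below {μ : ℕ → Set ℕ → ℝ} (h : ∀ n, FinAdd (alg FJ) (μ n) ∧ ∃ C, VarLE (alg FJ) (μ n) C)
    (hb : ∀ A ∈ alg FJ, ∃ C, ∀ n, |μ n A| ≤ C) (B : Set ℕ) (hB : B ∈ J) :
    ∃ K : ℝ, ∀ n, ∀ A ⊆ B, |μ n A| ≤ K := by
  have hJ : ∀ S : Set B, ((↑) '' S : Set ℕ) ∈ J := fun S =>
    J_mono hB (by rintro _ ⟨x, _, rfl⟩; exact x.2)
  obtain ⟨K, hK⟩ := H827R3.nik_set B (fun n S => μ n ((↑) '' S)) (by
    intro n
    constructor
    · intro S T hST
      show μ n ((↑) '' (S ∪ T)) = _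
      rw [Set.image_union]
      exact (h n).1 _ (mem_alg_of_J (hJ S)) _ (mem_alg_of_J (hJ T))
        ((Set.disjoint_image_iff Subtype.val_injective).2 hST)
    · obtain ⟨C, hC⟩ := (h n).2
      refine ⟨C, fun S => ?_⟩
      have := hC {((↑) '' S : Set ℕ)} (by
        intro A hA
        rw [Finset.mem_singleton.1 hA]
        exact mem_alg_of_J (hJ S)) (by simp)
      simpa using this) (by
    intro S
    obtain ⟨C, hC⟩ := hb _ (mem_alg_of_J (hJ S))
    exact ⟨C, hC⟩)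
  refine ⟨K, fun n A hA => ?_⟩
  have h1 : |μ n ((↑) '' ((↑) ⁻¹' A : Set B))| ≤ K := hK n ((↑) ⁻¹' A)
  rwa [Subtype.image_preimage_coe, Set.inter_eq_right.2 hA] at h1

theorem nikodym_FJ : Nikodym (alg FJ) := by
  intro μ h hb
  -- the submeasures
  let κ : ℕ → Set ℕ → ℝ≥0∞ := fun n X => ⨆ A : {A : Set ℕ // A ∈ J ∧ A ⊆ X},
    ENNReal.ofReal |μ n A.1|
  have hκ : Sub κ := by
    constructor
    · intro n X Y hXY
      apply iSup_le
      intro A
      exact le_iSup (fun A : {A : Set ℕ // A ∈ J ∧ A ⊆ Y} => ENNReal.ofReal |μ n A.1|)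
        ⟨A.1, A.2.1, A.2.2.trans hXY⟩
    · intro n X Y
      apply iSup_le
      rintro ⟨A, hA1, hA2⟩
      have h1 : A ∩ X ∈ J := J_mono hA1 Set.inter_subset_left
      have h2 : A \ X ∈ J := J_mono hA1 Set.sdiff_subset
      have h3 : μ n A = μ n (A ∩ X) + μ n (A \ X) := by
        rw [← (h n).1 _ (mem_alg_of_J h1) _ (mem_alg_of_J h2) Set.disjoint_sdiff_inter.symm,
          Set.inter_union_sdiff]
      have h4 : ENNReal.ofReal |μ n A| ≤
          ENNReal.ofReal |μ n (A ∩ X)| + ENNReal.ofReal |μ n (A \ X)| := by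
        rw [← ENNReal.ofReal_add (abs_nonneg _) (abs_nonneg _)]
        apply ENNReal.ofReal_le_ofReal
        rw [h3]
        exact abs_add_le _ _
      refine h4.trans (add_le_add ?_ ?_)
      · exact le_iSup (fun A : {A : Set ℕ // A ∈ J ∧ A ⊆ X} => ENNReal.ofReal |μ n A.1|)
          ⟨A ∩ X, h1, Set.inter_subset_right⟩
      · exact le_iSup (fun A : {A : Set ℕ // A ∈ J ∧ A ⊆ Y} => ENNReal.ofReal |μ n A.1|)
          ⟨A \ X, h2, by
            rintro x ⟨hx1, hx2⟩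
            exact (hA2 hx1).resolve_left hx2⟩
  have hκ0 : ∀ n, κ n ∅ = 0 := by
    intro n
    apply le_antisymm _ zero_le
    apply iSup_le
    rintro ⟨A, hA1, hA2⟩
    have : A = ∅ := Set.subset_empty_iff.1 hA2
    subst this
    show ENNReal.ofReal |μ n ∅| ≤ 0
    rw [(h n).1.empty]
    simp
  have hκb : ∀ s ∈ J, BddAt κ s := by
    intro s hs
    obtain ⟨K, hK⟩ := below h hb s hs
    refine ⟨ENNReal.ofReal K, ENNReal.ofReal_lt_top, fun n => ?_⟩
    apply iSup_le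
    rintro ⟨A, hA1, hA2⟩
    exact ENNReal.ofReal_le_ofReal (hK n A hA2)
  obtain ⟨K, hK, hK'⟩ := Jbound κ hκ hκ0 hκb
  have h1 : ∀ n, ∀ A ∈ J, |μ n A| ≤ K.toReal := by
    intro n A hA
    have h2 : ENNReal.ofReal |μ n A| ≤ K :=
      (le_iSup (fun B : {B : Set ℕ // B ∈ J ∧ B ⊆ A} => ENNReal.ofReal |μ n B.1|)
        ⟨A, hA, subset_rfl⟩).trans (hK' n A hA)
    exact (ENNReal.ofReal_le_iff_le_toReal hK.ne).1 h2
  obtain ⟨C, hC⟩ := hb _ univ_mem_alg
  have h2 : ∀ n, ∀ A ∈ alg FJ, |μ n A| ≤ |C| + K.toReal := by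
    intro n A hA
    rcases alg_eq.1 hA with hA' | hA'
    · exact (h1 n A hA').trans (by have := abs_nonneg C; linarith)
    · have h3 : μ n Set.univ = μ n A + μ n Aᶜ := by
        rw [← (h n).1 _ hA _ (mem_alg_of_J hA') disjoint_compl_right, Set.union_compl_self]
      have h4 : μ n A = μ n Set.univ - μ n Aᶜ := by linarith
      rw [h4]
      refine (abs_sub _ _).trans (add_le_add ((hC n).trans (le_abs_self C)) (h1 n _ hA'))
  exact ⟨_, fun n => varLE_of_bound (h n).1 (h2 n)⟩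

end Pool.Agent.Q302.NK
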