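import Pool.Agent.Q302.NK.Nik

/-!
# The filter dual to `Z ⊗ Fin` is Borel but not `F_σδ`

Helper file for problem MP_07734d_lc.
-/

namespace Pool.Agent.Q302.NK

open Filter Topology

/-- A family of subsets of `ω`, seen as a subset of the Cantor space `2^ω`. -/
def inCantor (F : Set (Set ℕ)) : Set (ℕ → Bool) := {x | {n | x n = true} ∈ F}

/-- `F_σδ` sets: countable intersections of countable unions of closed sets. -/
def IsFsigmadelta {X : Type} [TopologicalSpace X] (S : Set X) : Prop :=
  ∃ C : ℕ → ℕ → Set X, (∀ j i, IsClosed (C j i)) ∧ S = ⋂ j, ⋃ i, C j i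

/-! ### Borel -/

theorem measurable_FJ : MeasurableSet (inCantor FJ.sets) := by
  classical
  -- infinite columns of the complement
  have h1 : ∀ n : ℕ, MeasurableSet {x : ℕ → Bool | n ∈ infc {m | x m = true}ᶜ} := by
    intro n
    have h2 : {x : ℕ → Bool | n ∈ infc {m | x m = true}ᶜ} =
        ⋂ N : ℕ, ⋃ k : ℕ, ⋃ _ : N < k, {x : ℕ → Bool | x (Nat.pair n k) = false} := by
      ext x
      simp only [Set.mem_ofPred_eq, Set.mem_iInter, Set.mem_iUnion]
      have h3 : n ∈ infc {m | x m = true}ᶜ ↔ {k | x (Nat.pair n k) = false}.Infinite := by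
        have : col {m | x m = true}ᶜ n = {k | x (Nat.pair n k) = false} := by
          ext k
          simp [col]
        rw [← this]
        rfl
      rw [h3, Set.infinite_iff_exists_gt]
      constructor
      · intro h N
        obtain ⟨k, hk, hNk⟩ := h N
        exact ⟨k, hNk, hk⟩
      · intro h N
        obtain ⟨k, hNk, hk⟩ := h N
        exact ⟨k, hk, hNk⟩
    rw [h2]
    refine MeasurableSet.iInter fun N => MeasurableSet.iUnion fun k => MeasurableSet.iUnion fun _ => ?_
    have h5 : Measurable (fun x : ℕ → Bool => x (Nat.pair n k)) := measurable_pi_apply _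
    exact h5 (measurableSet_singleton false)
  have h2 : ∀ n : ℕ, Measurable (fun x : ℕ → Bool => dens n (infc {m | x m = true}ᶜ)) := by
    intro n
    have h3 : (fun x : ℕ → Bool => dens n (infc {m | x m = true}ᶜ)) =
        fun x => (∑ i ∈ Finset.Ico (2 ^ n) (2 ^ (n + 1)),
          (if i ∈ infc {m | x m = true}ᶜ then (1 : ℝ) else 0)) / 2 ^ n := by
      funext x
      unfold dens
      rw [Finset.sum_ite]
      simp
    rw [h3]
    apply Measurable.div_const
    apply Finset.measurable_fun_sum
    intro i _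
    exact Measurable.ite (h1 i) measurable_const measurable_const
  have h3 : inCantor FJ.sets =
      {x | Tendsto (fun n => dens n (infc {m | x m = true}ᶜ)) atTop (𝓝 0)} := rfl
  rw [h3]
  exact measurableSet_tendsto (𝓝 0) h2

/-! ### Not `F_σδ` -/

/-- Points with only finitely many infinite rows. -/
def G : Set (ℕ → ℕ → Bool) := {y | {n | {k | y n k = true}.Infinite}.Finite}

/-- One step: a closed set among countably many closed sets covering `G` contains all points with
prescribed rows below some level. -/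
theorem baire_step (C : ℕ → Set (ℕ → ℕ → Bool)) (hC : ∀ i, IsClosed (C i)) (hG : G ⊆ ⋃ i, C i)
    (N : ℕ) (a : ℕ → ℕ → Bool) :
    ∃ i, ∃ M ≥ N, ∃ b : ℕ → ℕ → Bool, (∀ n < N, b n = a n) ∧
      ∀ y : ℕ → ℕ → Bool, (∀ n < M, y n = b n) → y ∈ C i := by
  classical
  let _ : TopologicalSpace (Finset ℕ) := ⊥
  have : DiscreteTopology (Finset ℕ) := ⟨rfl⟩
  let φ : (ℕ → Finset ℕ) → (ℕ → ℕ → Bool) := fun s n k =>
    if n < N then a n k else decide (k ∈ s n)
  have hφ : Continuous φ := by
    refine continuous_pi fun n => continuous_pi fun k => ?_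
    by_cases hn : n < N
    · simp only [φ, hn, if_true]
      exact continuous_const
    · simp only [φ, hn, if_false]
      exact (continuous_of_discreteTopology (f := fun t : Finset ℕ => decide (k ∈ t))).comp
        (continuous_apply n)
  have hφG : ∀ s, φ s ∈ G := by
    intro s
    apply (Set.finite_lt_nat N).subset
    intro n hn
    by_contra hcon
    have hcon' : ¬ n < N := hcon
    apply hn
    apply (s n).finite_toSet.subset
    intro k hk
    have : φ s n k = true := hk
    simpa [φ, hcon'] using this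
  have hcov : ⋃ i, φ ⁻¹' (C i) = Set.univ := by
    rw [← Set.preimage_iUnion, Set.eq_univ_iff_forall]
    exact fun s => hG (hφG s)
  obtain ⟨i, s, hs⟩ := nonempty_interior_of_iUnion_of_closed
    (fun i => (hC i).preimage hφ) hcov
  obtain ⟨I, u, hu1, hu2⟩ := isOpen_pi_iff.1 isOpen_interior s hs
  obtain ⟨M₀, hM₀⟩ : ∃ M₀, ∀ n ∈ I, n < M₀ := ⟨I.sup id + 1, fun n hn => by
    have : n ≤ I.sup id := Finset.le_sup (f := id) hn
    omega⟩
  refine ⟨i, max M₀ N, le_max_right _ _, φ s, ?_, ?_⟩
  · intro n hn
    funext k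
    simp [φ, hn]
  · intro y hy
    -- approximations with finite rows
    let t : ℕ → ℕ → Finset ℕ := fun m n =>
      if n < max M₀ N then s n else (Finset.range m).filter (fun k => y n k = true)
    have h1 : ∀ m, φ (t m) ∈ C i := by
      intro m
      have h2 : t m ∈ (I : Set ℕ).pi u := by
        intro n hn
        have h3 : n < max M₀ N := (hM₀ n hn).trans_le (le_max_left _ _)
        have h4 : t m n = s n := if_pos h3
        rw [h4]
        exact (hu1 n hn).2
      have h5 : t m ∈ φ ⁻¹' (C i) := interior_subset (hu2 h2)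
      exact h5
    have h2 : Tendsto (fun m => φ (t m)) atTop (𝓝 y) := by
      rw [tendsto_pi_nhds]
      intro n
      rw [tendsto_pi_nhds]
      intro k
      apply tendsto_const_nhds.congr'
      filter_upwards [eventually_gt_atTop k] with m hm
      by_cases hn : n < max M₀ N
      · rw [hy n hn]
        have h4 : t m n = s n := if_pos hn
        simp only [φ, h4]
      · have hn' : ¬ n < N := fun h => hn (h.trans_le (le_max_right _ _))
        have h4 : t m n = (Finset.range m).filter (fun k => y n k = true) := if_neg hn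
        simp only [φ, h4, hn', if_false, Finset.mem_filter, Finset.mem_range, hm, true_and]
        cases y n k <;> simp
    exact (hC i).mem_of_tendsto h2 (Eventually.of_forall h1)

theorem G_not : ¬ IsFsigmadelta G := by
  classical
  rintro ⟨C, hC, hG⟩
  have hstep : ∀ j N (a : ℕ → ℕ → Bool), ∃ i, ∃ M ≥ N, ∃ b : ℕ → ℕ → Bool, (∀ n < N, b n = a n) ∧
      ∀ y : ℕ → ℕ → Bool, (∀ n < M, y n = b n) → y ∈ C j i := by
    intro j N a
    apply baire_step (C j) (hC j)
    rw [hG]
    exact Set.iInter_subset _ j
  choose i M hM b hb1 hb2 using hstep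
  -- the recursion: state = (N, a)
  obtain ⟨S, hS0, hS⟩ : ∃ S : ℕ → ℕ × (ℕ → ℕ → Bool), S 0 = (0, fun _ _ => false) ∧
      ∀ j, S (j + 1) = (M j (S j).1 (S j).2 + 1, fun n =>
        if n = M j (S j).1 (S j).2 then fun _ => true else b j (S j).1 (S j).2 n) :=
    ⟨fun j => Nat.rec (0, fun _ _ => false) (fun j s => (M j s.1 s.2 + 1, fun n =>
        if n = M j s.1 s.2 then fun _ => true else b j s.1 s.2 n)) j, rfl, fun j => rfl⟩
  set N : ℕ → ℕ := fun j => (S j).1 with hN
  set a : ℕ → ℕ → ℕ → Bool := fun j => (S j).2 with ha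
  set m : ℕ → ℕ := fun j => M j (N j) (a j) with hm
  have hN1 : ∀ j, N (j + 1) = m j + 1 := fun j => by
    show (S (j + 1)).1 = _
    rw [hS]
  have hNm : ∀ j, N j ≤ m j := fun j => hM j _ _
  have ha1 : ∀ j, ∀ n < m j, a (j + 1) n = b j (N j) (a j) n := by
    intro j n hn
    show (S (j + 1)).2 n = _
    rw [hS]
    have : n ≠ M j (S j).1 (S j).2 := ne_of_lt hn
    simp only [this, if_false]
    rfl
  have ha2 : ∀ j, a (j + 1) (m j) = fun _ => true := by
    intro j
    show (S (j + 1)).2 _ = _
    rw [hS]
    have : m j = M j (S j).1 (S j).2 := rfl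
    simp only [this, if_true]
  have hNlt : ∀ j, N j < N (j + 1) := fun j => by rw [hN1]; have := hNm j; omega
  have hNmono : StrictMono N := strictMono_nat_of_lt_succ hNlt
  have ha3 : ∀ j, ∀ n < N j, a (j + 1) n = a j n := by
    intro j n hn
    rw [ha1 j n (hn.trans_le (hNm j))]
    exact hb1 j (N j) (a j) n hn
  have ha4 : ∀ j l, j ≤ l → ∀ n < N j, a l n = a j n := by
    intro j l hjl
    induction hjl with
    | refl => intro n _; rfl
    | step h ih =>
      intro n hn
      rw [ha3 _ n (hn.trans_le (hNmono.monotone h)), ih n hn]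
  -- the limit
  let y : ℕ → ℕ → Bool := fun n => a (n + 1) n
  have hNge : ∀ j, j ≤ N j := hNmono.id_le
  have hy : ∀ j, ∀ n < N j, y n = a j n := by
    intro j n hn
    rcases le_total j (n + 1) with h | h
    · exact ha4 j (n + 1) h n hn
    · exact (ha4 (n + 1) j h n (hNge (n + 1))).symm
  have hyG : y ∈ G := by
    rw [hG, Set.mem_iInter]
    intro j
    rw [Set.mem_iUnion]
    refine ⟨i j (N j) (a j), hb2 j (N j) (a j) y ?_⟩
    intro n hn
    have hn' : n < m j := hn
    rw [hy (j + 1) n (by rw [hN1]; omega), ha1 j n hn']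
  have hinf : Set.range m ⊆ {n | {k | y n k = true}.Infinite} := by
    rintro _ ⟨j, rfl⟩
    have h1 : y (m j) = fun _ => true := by
      rw [hy (j + 1) (m j) (by rw [hN1]; omega), ha2 j]
    show {k | y (m j) k = true}.Infinite
    rw [h1]
    have : {k : ℕ | (fun _ : ℕ => true) k = true} = Set.univ := by ext; simp
    rw [this]
    exact Set.infinite_univ
  have hminj : Function.Injective m := by
    intro p q hpq
    by_contra hne
    rcases lt_or_gt_of_ne hne with h | h
    · have h1 : N (p + 1) ≤ N q := hNmono.monotone h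
      have h2 := hN1 p
      have h3 := hNm q
      omega
    · have h1 : N (q + 1) ≤ N p := hNmono.monotone h
      have h2 := hN1 q
      have h3 := hNm p
      omega
  exact (Set.infinite_range_of_injective hminj) (hyG.subset hinf)

theorem not_fsigmadelta : ¬ IsFsigmadelta (inCantor FJ.sets) := by
  rintro ⟨C, hC, hF⟩
  apply G_not
  let Φ : (ℕ → ℕ → Bool) → (ℕ → Bool) := fun y p => !(y (Nat.log 2 (Nat.unpair p).1) (Nat.unpair p).2)
  have hΦ : Continuous Φ := by
    refine continuous_pi fun p => ?_
    exact (continuous_of_discreteTopology (f := fun t : Bool => !t)).comp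
      ((continuous_apply _).comp (continuous_apply _))
  have hΦG : ∀ y, Φ y ∈ inCantor FJ.sets ↔ y ∈ G := by
    intro y
    have h1 : Φ y ∈ inCantor FJ.sets ↔ infc {p | Φ y p = true}ᶜ ∈ Z := Iff.rfl
    rw [h1]
    have h2 : infc {p | Φ y p = true}ᶜ = {k | Nat.log 2 k ∈ {n | {k | y n k = true}.Infinite}} := by
      ext n
      have h3 : col {p | Φ y p = true}ᶜ n = {k | y (Nat.log 2 n) k = true} := by
        ext k
        simp [col, Φ]
      show (col {p | Φ y p = true}ᶜ n).Infinite ↔ _
      rw [h3]
      rfl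
    rw [h2, Z_log_iff]
    rfl
  refine ⟨fun j i => Φ ⁻¹' (C j i), fun j i => (hC j i).preimage hΦ, ?_⟩
  ext y
  rw [← hΦG y, hF]
  simp

end Pool.Agent.Q302.NK
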